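import Mathlib
import Pool.Agent.H27.SZ.Main

/-!
# The minimal measure of the set where at least `j` parts of a Sperner partition meet
-/

namespace Pool.Agent.Results.MP_38b231_co.BlockValues

open SP SZ
open scoped Nat

/-- Put `n = k - j + 1` and let `bal k n` be the product of `n` integers with the sum `k` which
differ by at most one. For `k ≥ 4` and `3 ≤ j ≤ k - 1` the infimum of the `(k - j)`-dimensional
Minkowski content of the set `S_j` of points which lie in at least `j` of the sets, over all
Sperner-admissible partitions of the simplex with `k` vertices for which this content exists, is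
`√k / ((k - j)! √(bal k n))` if `2 (j - 1) ≤ k` or `n ∣ k` or `j = k - 1`. It is at most this
number for all `j`. For all `j` and all closed covers `A` of the simplex with `x i > 0` on `A i`
this content is at least `√k / ((k - j)! √(min (2 ^ (j - 1)) ((k / n) ^ n)))`, if it exists. -/
theorem result (k j : ℕ) (hj : 3 ≤ j) (hjk : j + 1 ≤ k) :
    (2 * (j - 1) ≤ k ∨ (k - j + 1) ∣ k ∨ j + 1 = k →
      IsGLB {L : ℝ | ∃ A : Fin k → Set (V k), Adm k A ∧ HasContent k (k - j) (meet k A j) L}
        (Real.sqrt k / (((k - j) ! : ℝ) * Real.sqrt (bal k (k - j + 1))))) ∧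
    (∀ b ∈ lowerBounds {L : ℝ | ∃ A : Fin k → Set (V k), Adm k A ∧
        HasContent k (k - j) (meet k A j) L},
      b ≤ Real.sqrt k / (((k - j) ! : ℝ) * Real.sqrt (bal k (k - j + 1)))) ∧
    ∀ A : Fin k → Set (V k), Adm0 k A → ∀ L : ℝ, HasContent k (k - j) (meet k A j) L →
      Real.sqrt k / (((k - j) ! : ℝ) * Real.sqrt
        (min (2 ^ (j - 1)) (((k : ℝ) / ((k - j + 1 : ℕ) : ℝ)) ^ (k - j + 1)))) ≤ L :=
  SZ.final k j hj hjk

end Pool.Agent.Results.MP_38b231_co.BlockValues
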